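import Pool.Agent.H64.AVR.ST1
import Pool.Agent.H96.AVR.ST2
import Pool.Agent.H14.AVR.Stmts3

/-! # AVR, module ST3: squarefree discriminants in characteristic three -/

set_option autoImplicit false

namespace Pool.AVR

open Polynomial Matrix

namespace ST3

theorem hh_nonneg (q : ℝ) (hq : 3 ≤ q) (m : ℕ) :
    0 ≤ (if m = 0 then 1 / (q ^ 3 - q) else 1 / ((q - 1) * q ^ (m + 1)) : ℝ) := by
  have h0 : 0 < q := by linarith
  have h1 : 0 < q - 1 := by linarith
  have h3 : 0 < q ^ 3 - q := by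
    have : q ^ 3 - q = q * (q - 1) * (q + 1) := by ring
    rw [this]
    positivity
  split_ifs <;> positivity

/-- The sum over the instability degree. -/
theorem sumM (q κ : ℝ) (hq : 3 ≤ q) (hκ : 0 ≤ κ) (D n : ℕ) (a g : ℕ → ℝ)
    (ha0 : ∀ m, 0 ≤ a m) (ha1 : ∀ m, m ≤ n → a m ≤ q ^ (12 * n + 6))
    (ha2 : ∀ m, m + D ≤ n → a m ≤ q ^ (12 * n + 6) * κ) (hg : ∀ m, q ^ m ≤ g m)
    (hg0 : q ^ 3 - q ≤ g 0) (hg1 : ∀ m, 1 ≤ m → (q - 1) * q ^ (m + 1) ≤ g m) :
    ∑ m ∈ Finset.range (n + 1), a m / g m ≤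
      q ^ (12 * n + 6) * κ * (2 / ((q - 1) ^ 2 * (q + 1))) +
        q ^ (12 * n + 6) * (D * (q ^ D / q ^ n)) := by
  have hq0 : 0 < q := by linarith
  have hq1 : 0 < q - 1 := by linarith
  set T : ℝ := q ^ (12 * n + 6) with hT
  have hT0 : 0 < T := by positivity
  have h3 : 0 < q ^ 3 - q := by
    have : q ^ 3 - q = q * (q - 1) * (q + 1) := by ring
    rw [this]
    positivity
  have hterm : ∀ m ∈ Finset.range (n + 1), a m / g m ≤
      T * κ * (if m = 0 then 1 / (q ^ 3 - q) else 1 / ((q - 1) * q ^ (m + 1))) +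
        T * (if n < m + D then q ^ D / q ^ n else 0) := by
    intro m hm
    have hmn : m ≤ n := by
      have := Finset.mem_range.mp hm
      omega
    have hqm : 0 < q ^ m := by positivity
    have hgm : 0 < g m := lt_of_lt_of_le hqm (hg m)
    have hnn := hh_nonneg q hq m
    by_cases hD : n < m + D
    · rw [if_pos hD]
      have h1 : a m / g m ≤ a m / q ^ m :=
        div_le_div_of_nonneg_left (ha0 m) hqm (hg m)
      have h2 : a m / q ^ m ≤ T * (q ^ D / q ^ n) := by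
        rw [div_le_iff₀ hqm]
        have h3 : 1 ≤ q ^ D / q ^ n * q ^ m := by
          rw [div_mul_eq_mul_div, le_div_iff₀ (by positivity), one_mul, ← pow_add]
          exact pow_le_pow_right₀ (by linarith) (by omega)
        calc a m ≤ T * 1 := by rw [mul_one]; exact ha1 m hmn
          _ ≤ T * (q ^ D / q ^ n * q ^ m) := by
            apply mul_le_mul_of_nonneg_left h3 hT0.le
          _ = T * (q ^ D / q ^ n) * q ^ m := by ring
      have h4 : 0 ≤ T * κ * (if m = 0 then 1 / (q ^ 3 - q) else 1 / ((q - 1) * q ^ (m + 1))) :=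
        mul_nonneg (by positivity) hnn
      linarith
    · rw [if_neg hD, mul_zero, add_zero]
      have h5 : 0 < (if m = 0 then q ^ 3 - q else (q - 1) * q ^ (m + 1)) := by
        split_ifs
        · exact h3
        · positivity
      have h6 : (if m = 0 then q ^ 3 - q else (q - 1) * q ^ (m + 1)) ≤ g m := by
        split_ifs with hm0
        · rw [hm0]
          exact hg0
        · exact hg1 m (Nat.one_le_iff_ne_zero.2 hm0)
      calc a m / g m ≤ T * κ / g m := div_le_div_of_nonneg_right (ha2 m (by omega)) hgm.le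
        _ ≤ T * κ / (if m = 0 then q ^ 3 - q else (q - 1) * q ^ (m + 1)) :=
          div_le_div_of_nonneg_left (by positivity) h5 h6
        _ = _ := by split_ifs <;> ring
  refine (Finset.sum_le_sum hterm).trans ?_
  rw [Finset.sum_add_distrib, ← Finset.mul_sum, ← Finset.mul_sum]
  have hser : ∑ m ∈ Finset.range (n + 1),
      (if m = 0 then 1 / (q ^ 3 - q) else 1 / ((q - 1) * q ^ (m + 1))) ≤
        2 / ((q - 1) ^ 2 * (q + 1)) := by
    rw [Finset.sum_range_succ']
    have h13 := st1_series q (by linarith) n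
    simp only [if_true, Nat.succ_ne_zero, if_false]
    have e : ∀ m : ℕ, m + 1 + 1 = m + 2 := fun m => rfl
    simp only [e]
    linarith
  have hcard : ∑ m ∈ Finset.range (n + 1), (if n < m + D then q ^ D / q ^ n else 0) ≤
      D * (q ^ D / q ^ n) := by
    rw [← Finset.sum_filter, Finset.sum_const, nsmul_eq_mul]
    apply mul_le_mul_of_nonneg_right _ (by positivity)
    have hsub : (Finset.range (n + 1)).filter (fun m => n < m + D) ⊆
        Finset.Ico (n + 1 - D) (n + 1) := by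
      intro m hm
      rw [Finset.mem_filter, Finset.mem_range] at hm
      rw [Finset.mem_Ico]
      omega
    have := Finset.card_le_card hsub
    rw [Nat.card_Ico] at this
    exact_mod_cast this.trans (by omega)
  exact add_le_add (mul_le_mul_of_nonneg_left hser (by positivity))
    (mul_le_mul_of_nonneg_left hcard hT0.le)

theorem tail (q η : ℝ) (hq : 3 ≤ q) (hη : 0 < η) (D : ℕ) :
    ∃ N : ℕ, ∀ n : ℕ, N ≤ n → q ^ (12 * n + 6) * (D * (q ^ D / q ^ n)) ≤
      η * q ^ (12 * n + 3) := by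
  have hq0 : 0 < q := by linarith
  set A : ℝ := q ^ 3 * (D * q ^ D) + 1 with hA
  have hA0 : 0 < A := by positivity
  obtain ⟨N, hN⟩ := exists_pow_lt_of_lt_one (div_pos hη hA0) (show q⁻¹ < 1 from
    inv_lt_one_of_one_lt₀ (by linarith))
  refine ⟨N, fun n hn => ?_⟩
  have hr : (q⁻¹) ^ n ≤ η / A := by
    refine le_trans ?_ hN.le
    exact pow_le_pow_of_le_one (by positivity) (inv_le_one_of_one_le₀ (by linarith)) hn
  have h1 : (q⁻¹) ^ n * A ≤ η := by rwa [le_div_iff₀ hA0] at hr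
  have hr0 : 0 < (q⁻¹) ^ n := by positivity
  have h2 : (q⁻¹) ^ n * (q ^ 3 * (D * q ^ D)) ≤ η := by
    have : (q⁻¹) ^ n * A = (q⁻¹) ^ n * (q ^ 3 * (D * q ^ D)) + (q⁻¹) ^ n := by rw [hA]; ring
    linarith
  have h3 : q ^ (12 * n + 6) * (D * (q ^ D / q ^ n)) =
      (q⁻¹) ^ n * (q ^ 3 * (D * q ^ D)) * q ^ (12 * n + 3) := by
    rw [show 12 * n + 6 = 12 * n + 3 + 3 by ring, pow_add, inv_pow, div_eq_mul_inv]
    ring
  rw [h3]
  exact mul_le_mul_of_nonneg_right h2 (by positivity)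

theorem dens_nonneg (R : Type) [CommRing R] : 0 ≤ dens R := by
  unfold dens
  positivity

theorem dens_le (R : Type) [CommRing R] [Finite R] : dens R ≤ 1 := by
  unfold dens
  have h0 : (0 : ℝ) < (Nat.card R : ℝ) := by
    exact_mod_cast Nat.card_pos
  rw [div_le_one (by positivity)]
  have h1 : {t : R × R × R | disc t.1 t.2.1 t.2.2 ≠ 0}.ncard ≤ Nat.card (R × R × R) := by
    rw [← Set.ncard_univ]
    exact Set.ncard_le_ncard (Set.subset_univ _) (Set.toFinite _)
  rw [Nat.card_prod, Nat.card_prod] at h1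
  calc (({t : R × R × R | disc t.1 t.2.1 t.2.2 ≠ 0}.ncard : ℕ) : ℝ) ≤
        ((Nat.card R * (Nat.card R * Nat.card R) : ℕ) : ℝ) := by exact_mod_cast h1
    _ = (Nat.card R : ℝ) ^ 3 := by push_cast; ring

/-- the final inequality -/
theorem final (q ε d c X Sz T Z δ : ℝ) (hq : 3 ≤ q) (hε : 0 < ε) (hε1 : ε ≤ 1) (hT : 0 < T)
    (hc : 0 < c) (hcd : c ≤ d)
    (hZ : Z ≤ 1 - 1 / q + ε / 12) (hδ : δ ≤ ε * c / 9)
    (hX : X ≤ q ^ 3 * T * ((1 - 1 / q ^ 2) * d * Z) * (2 / ((q - 1) ^ 2 * (q + 1))) +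
      ε * c / 3 * T)
    (hS : T * (d - δ) ≤ Sz) : X ≤ (2 + ε) * Sz := by
  have hq0 : 0 < q := by linarith
  have hq1 : 0 < q - 1 := by linarith
  have hd : 0 < d := lt_of_lt_of_le hc hcd
  have h1 : q ^ 3 * T * ((1 - 1 / q ^ 2) * d * Z) * (2 / ((q - 1) ^ 2 * (q + 1))) =
      2 * T * d * (Z / (1 - 1 / q)) := by
    have h2 : (1 - 1 / q) ≠ 0 := by
      rw [sub_ne_zero]
      intro h
      rw [eq_div_iff hq0.ne'] at h
      linarith
    field_simp
    ring
  have h3 : Z / (1 - 1 / q) ≤ 1 + ε / 6 := by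
    have h4 : 1 / q ≤ 1 / 3 := one_div_le_one_div_of_le (by norm_num) hq
    rw [div_le_iff₀ (by linarith)]
    nlinarith
  have h5 : 2 * T * d * (Z / (1 - 1 / q)) ≤ 2 * T * d * (1 + ε / 6) :=
    mul_le_mul_of_nonneg_left h3 (by positivity)
  have h6 : (2 + ε) * (T * (d - δ)) ≤ (2 + ε) * Sz :=
    mul_le_mul_of_nonneg_left hS (by positivity)
  have h7 : ε * c / 3 * T ≤ ε * d / 3 * T := by
    have : ε * c ≤ ε * d := mul_le_mul_of_nonneg_left hcd hε.le
    apply mul_le_mul_of_nonneg_right _ hT.le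
    linarith
  have h8 : (2 + ε) * δ ≤ ε * d / 3 := by
    have h9 : (2 + ε) * δ ≤ (2 + ε) * (ε * c / 9) := mul_le_mul_of_nonneg_left hδ (by positivity)
    have h10 : ε * c ≤ ε * d := mul_le_mul_of_nonneg_left hcd hε.le
    have h11 : 0 < ε * c := mul_pos hε hc
    nlinarith
  have h9 : 2 * T * d * (1 + ε / 6) + ε * d / 3 * T ≤ (2 + ε) * (T * (d - δ)) := by
    have e1 : (2 + ε) * (T * (d - δ)) = T * ((2 + ε) * d - (2 + ε) * δ) := by ring
    have e2 : 2 * T * d * (1 + ε / 6) + ε * d / 3 * T = T * (2 * d + 2 / 3 * (ε * d)) := by ring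
    rw [e1, e2]
    apply mul_le_mul_of_nonneg_left _ hT.le
    have : 0 < ε * d := by positivity
    nlinarith
  rw [h1] at hX
  linarith

/-- the primes of degree at most `D` -/
theorem primes_fin (F : Type) [Field F] [Finite F] (D : ℕ) :
    ∃ S : Finset F[X], (∀ P ∈ S, P.Monic ∧ Irreducible P) ∧
      ∀ P : F[X], P.Monic → Irreducible P → P.natDegree ≤ D → P ∈ S := by
  classical
  have hfin : {P : F[X] | P.natDegree ≤ D}.Finite := by
    have h1 : Finite (degreeLT F (D + 1)) := by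
      have e := degreeLTEquiv F (D + 1)
      exact Finite.of_equiv _ e.toEquiv.symm
    refine Set.Finite.subset (Set.toFinite ((degreeLT F (D + 1) : Submodule F F[X]) : Set F[X])) ?_
    intro P hP
    show P ∈ degreeLT F (D + 1)
    rw [mem_degreeLT]
    calc P.degree ≤ P.natDegree := degree_le_natDegree
      _ < ((D + 1 : ℕ) : WithBot ℕ) := by
        have : P.natDegree < D + 1 := Nat.lt_succ_of_le hP
        exact_mod_cast this
  have hfin2 : {P : F[X] | P.natDegree ≤ D ∧ P.Monic ∧ Irreducible P}.Finite :=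
    hfin.subset (fun P hP => hP.1)
  refine ⟨hfin2.toFinset, ?_, ?_⟩
  · intro P hP
    rw [Set.Finite.mem_toFinset] at hP
    exact hP.2
  · intro P h1 h2 h3
    rw [Set.Finite.mem_toFinset]
    exact ⟨h3, h1, h2⟩

end ST3

open ST3 in
open Classical in
theorem st3_thm (hNUM : NUMStmt) (hDNF : DNFStmt) (hPRD : PRDStmt) (hZET : ZETStmt)
    (hSFI : SFIStmt) (hFIN : FINStmt) (hSTAB : STABStmt) (hGRP : GRPStmt) (hCNB : CNBStmt) :
    ST3Stmt := by
  intro F _ _ h3F ε0 hε0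
  -- reduce to `ε ≤ 1`
  set ε : ℝ := min ε0 1 with hεdef
  have hε : 0 < ε := lt_min hε0 one_pos
  have hε1 : ε ≤ 1 := min_le_right _ _
  have hεε : ε ≤ ε0 := min_le_left _ _
  have h2 : (2 : F) ≠ 0 := by
    intro h
    have : (1 : F) = 0 := by linear_combination h3F - h
    exact one_ne_zero this
  have hq3 := ST2.three_le h2
  set q : ℝ := (Nat.card F : ℝ) with hqdef
  have hq : 3 ≤ q := by
    rw [hqdef]
    exact_mod_cast hq3
  have hq0 : 0 < q := by linarith
  obtain ⟨c, hc, hPRD'⟩ := hPRD F h3F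
  obtain ⟨D1, hD1⟩ := hZET F (ε / 12) (by positivity)
  obtain ⟨D2, hD2⟩ := hDNF F h3F (ε * c / 9) (by positivity)
  obtain ⟨S, hS1, hS2⟩ := primes_fin F (max D1 D2)
  have hZ := hD1 S hS1 (fun P h h' h'' => hS2 P h h' (h''.trans (le_max_left _ _)))
  obtain ⟨N1, hN1⟩ := hD2 S hS1 (fun P h h' h'' => hS2 P h h' (h''.trans (le_max_right _ _)))
  obtain ⟨D3, hD3⟩ := hNUM F h2 S hS1
  obtain ⟨N2, hN2⟩ := tail q (ε * c / 3) hq (by positivity) D3
  have hd := hPRD' S hS1
  set d : ℝ := dens (DualNumber F) * ∏ P ∈ S, dens (AdjoinRoot (P ^ 2)) with hddef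
  set Z : ℝ := ∏ P ∈ S, (1 - 1 / q ^ (2 * P.natDegree)) with hZdef
  have hZ0 : 0 ≤ Z := by
    apply Finset.prod_nonneg
    intro P hP
    have h4 : 1 ≤ P.natDegree := (hS1 P hP).2.natDegree_pos
    have h5 : 1 / q ^ (2 * P.natDegree) ≤ 1 := by
      rw [div_le_one (by positivity)]
      exact one_le_pow₀ (by linarith)
    linarith
  have hd0 : 0 < d := lt_of_lt_of_le hc hd
  refine ⟨max (max N1 N2) 1, fun n hn => ?_⟩
  have hnN1 : N1 ≤ n := (le_max_left _ _).trans ((le_max_left _ _).trans hn)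
  have hnN2 : N2 ≤ n := (le_max_right _ _).trans ((le_max_left _ _).trans hn)
  have hn1 : 1 ≤ n := (le_max_right _ _).trans hn
  obtain ⟨hfin, hlow⟩ := hN1 n hnN1
  have hsub : SF F n ⊆ Irr F n := hSFI F h2 n hn1
  have hT0 : 0 < q ^ (12 * n + 3) := by positivity
  have hcard0 : (0 : ℝ) < ((SF F n).ncard : ℝ) := by
    refine lt_of_lt_of_le ?_ hlow
    apply mul_pos hT0
    have : ε * c / 9 < c := by nlinarith
    linarith
  -- the sum over the classes
  obtain ⟨hF1, hF2⟩ := hFIN F h2 n 1 (SF F n) (fun f hf => hf.1) (fun f hf => (hsub hf).2.2)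
    (by
      intro B hB ⟨f, hf, hfB⟩
      have hsub1 : {g : Matrix (Fin 3) (Fin 3) F[X] | gᵀ * AA F[X] * g = AA F[X] ∧
          gᵀ * B * g = B ∧ g.det = 1} ⊆ {1} := by
        intro g hg
        exact st1_stab hSTAB F h2 B hB f (hsub hf).2.1 hfB g hg.1 hg.2.1 hg.2.2
      refine ⟨(Set.finite_singleton _).subset hsub1, ?_⟩
      exact (Set.ncard_le_ncard hsub1 (Set.finite_singleton _)).trans
        (by rw [Set.ncard_singleton]))
  have hset : ∀ f ∈ SF F n, {ξ : Mod2 (EK f) | ξ ≠ 0 ∧ ∃ (x y : RatFunc F)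
      (h : (E (algebraMap F[X] (RatFunc F) f.1) (algebraMap F[X] (RatFunc F) f.2.1)
        (algebraMap F[X] (RatFunc F) f.2.2)).toAffine.Nonsingular x y), y ≠ 0 ∧
        QuotientAddGroup.mk (WeierstrassCurve.Affine.Point.some x y h) = ξ} =
        {ξ : Mod2 (EK f) | ξ ≠ 0} := by
    intro f hf
    ext ξ
    refine ⟨fun h => h.1, fun h => ⟨h, ?_⟩⟩
    obtain ⟨P, rfl⟩ := QuotientAddGroup.mk_surjective ξ
    cases P with
    | zero => exact absurd (QuotientAddGroup.mk_zero _) h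
    | some x y hP => exact ⟨x, y, hP, st1_root F f (hsub hf).2.1 x y hP, rfl⟩
  have hfinM : ∀ f ∈ SF F n, Finite (Mod2 (EK f)) := by
    intro f hf
    have h3 := hF1 f hf
    rw [hset f hf] at h3
    have h4 : (Set.univ : Set (Mod2 (EK f))).Finite := by
      refine ((Set.finite_singleton (0 : Mod2 (EK f))).union h3).subset ?_
      intro ξ _
      by_cases hξ : ξ = 0
      · exact Or.inl hξ
      · exact Or.inr hξ
    exact Set.finite_univ_iff.1 h4
  have hsum : ∑ᶠ f ∈ SF F n, ((Nat.card (Mod2 (EK f)) : ℝ) - 1) =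
      ∑ᶠ f ∈ SF F n, ({ξ : Mod2 (EK f) | ξ ≠ 0 ∧ ∃ (x y : RatFunc F)
      (h : (E (algebraMap F[X] (RatFunc F) f.1) (algebraMap F[X] (RatFunc F) f.2.1)
        (algebraMap F[X] (RatFunc F) f.2.2)).toAffine.Nonsingular x y), y ≠ 0 ∧
        QuotientAddGroup.mk (WeierstrassCurve.Affine.Point.some x y h) = ξ}.ncard : ℝ) := by
    refine finsum_mem_congr rfl (fun f hf => ?_)
    rw [hset f hf]
    have hfi := hfinM f hf
    have h5 : ({ξ : Mod2 (EK f) | ξ ≠ 0} : Set (Mod2 (EK f))) = {0}ᶜ := rfl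
    rw [h5, Set.ncard_compl, Set.ncard_singleton]
    have h6 : 1 ≤ Nat.card (Mod2 (EK f)) := Nat.card_pos
    push_cast [h6]
    rfl
  obtain ⟨hG1, hG2, hG3⟩ := hGRP F h2
  have hcardS : ∀ n m : ℕ, m ≤ n → ({B : Matrix (Fin 3) (Fin 3) F[X] | Bd n m B ∧
          ∃ f ∈ SF F n, (AA F[X] * B).charpoly = cubP f}.ncard : ℝ) ≤ q ^ (12 * n + 6) := by
    intro n m hmn
    obtain ⟨hC1, hC2⟩ := hCNB F n m hmn
    have h8 := (Set.ncard_le_ncard (s := {B : Matrix (Fin 3) (Fin 3) F[X] | Bd n m B ∧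
          ∃ f ∈ SF F n, (AA F[X] * B).charpoly = cubP f}) (fun B hB => hB.1) hC1).trans hC2
    rw [hqdef]
    exact_mod_cast h8
  have hX := sumM q ((1 - 1 / q ^ 2) * d * Z) hq (by
      have h5 : 1 / q ^ 2 ≤ 1 := by
        rw [div_le_one (by positivity)]
        exact one_le_pow₀ (by linarith)
      exact mul_nonneg (mul_nonneg (by linarith) hd0.le) hZ0) D3 n
    (fun m => ({B : Matrix (Fin 3) (Fin 3) F[X] | Bd n m B ∧
          ∃ f ∈ SF F n, (AA F[X] * B).charpoly = cubP f}.ncard : ℝ))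
    (fun m => ((GG F m).ncard : ℝ)) (fun m => Nat.cast_nonneg _) (fun m hm => hcardS n m hm)
    (fun m hm => by
      have h5 := hD3 n m hm
      refine h5.trans (le_of_eq ?_)
      rw [Finset.prod_mul_distrib, ← hZdef, hddef]
      ring)
    (fun m => ST2.GG_ge hGRP h2 m)
    (by
      have h11 : Nat.card F ≤ Nat.card F ^ 3 := Nat.le_self_pow (by norm_num) _
      have h12 : ((Nat.card F ^ 3 - Nat.card F : ℕ) : ℝ) ≤ ((GG F 0).ncard : ℝ) := by
        exact_mod_cast hG2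
      rw [Nat.cast_sub h11] at h12
      push_cast at h12
      exact h12)
    (fun m hm => by
      have h12 : (((Nat.card F - 1) * Nat.card F ^ (m + 1) : ℕ) : ℝ) ≤
          ((GG F m).ncard : ℝ) := by
        exact_mod_cast hG3 m hm
      rw [Nat.cast_mul, Nat.cast_sub (le_of_lt (Finite.one_lt_card))] at h12
      push_cast at h12
      exact h12)
  have hX2 : ∑ᶠ f ∈ SF F n, ((Nat.card (Mod2 (EK f)) : ℝ) - 1) ≤
      q ^ 3 * q ^ (12 * n + 3) * ((1 - 1 / q ^ 2) * d * Z) * (2 / ((q - 1) ^ 2 * (q + 1))) +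
        ε * c / 3 * q ^ (12 * n + 3) := by
    rw [hsum]
    refine hF2.trans ?_
    rw [Nat.cast_one, one_mul]
    refine hX.trans ?_
    have e1 : q ^ (12 * n + 6) = q ^ 3 * q ^ (12 * n + 3) := by
      rw [← pow_add]
      congr 1
      ring
    have h9 := hN2 n hnN2
    rw [e1] at h9 ⊢
    linarith
  have hfinal := final q ε d c _ ((SF F n).ncard : ℝ) (q ^ (12 * n + 3)) Z (ε * c / 9) hq hε hε1
    hT0 hc hd hZ le_rfl hX2 hlow
  refine ⟨by exact_mod_cast hcard0, hfinM, ?_⟩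
  have hsplit : ∑ᶠ f ∈ SF F n, (Nat.card (Mod2 (EK f)) : ℝ) =
      ∑ᶠ f ∈ SF F n, ((Nat.card (Mod2 (EK f)) : ℝ) - 1) + (SF F n).ncard := by
    have e2 : ∑ᶠ f ∈ SF F n, (1 : ℝ) = (SF F n).ncard := by
      rw [finsum_mem_eq_finite_toFinset_sum _ hfin, Finset.sum_const, nsmul_eq_mul, mul_one,
        Set.ncard_eq_toFinset_card _ hfin]
    rw [← e2, ← finsum_mem_add_distrib hfin]
    refine finsum_mem_congr rfl (fun f _ => ?_)
    ring
  rw [hsplit]
  have h13 : (3 + ε) * ((SF F n).ncard : ℝ) ≤ (3 + ε0) * (SF F n).ncard :=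
    mul_le_mul_of_nonneg_right (by linarith) hcard0.le
  linarith

end Pool.AVR
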